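import Pool.Agent.H34.N6V.Targets

/-!
# Two quadrics in `ℙ⁶`, several irreducible factors: normal form and main statements
-/

set_option autoImplicit false

open Polynomial NumberField IsDedekindDomain Matrix Pool.Agent.H32.QC Pool.Agent.H34.N6

namespace Pool.Agent.H34.N6V

/-- the signed discriminant of the restriction of the pencil to the hyperplane orthogonal to
`u`: minus the value at `u` of the adjugate of `A - X B` -/
noncomputable def dm {k : Type} [Field k] (A B : Matrix (Fin 7) (Fin 7) k) (u : Fin 7 → k) :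
    k[X] :=
  -((fun i => C (u i)) ⬝ᵥ
    ((A.map (C : k →+* k[X]) - (X : k[X]) • B.map (C : k →+* k[X])).adjugate *ᵥ
      fun i => C (u i)))

/-- no vertical class, for a pencil of quadratic forms -/
def NVM {k : Type} [Field k] (A B : Matrix (Fin 7) (Fin 7) k) : Prop :=
  ∀ Q R : k[X], Q.Monic → R.Monic → Q ≠ 1 → R ≠ 1 →
    Associated (Q * R) (A.map (C : k →+* k[X]) - (X : k[X]) • B.map (C : k →+* k[X])).det →
    ∃ u : Fin 7 → k, ¬ IsSquare (Q.resultant (dm A B u))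

/-- no vertical class, for the model -/
def NVP {k : Type} [Field k] (P D : k[X]) : Prop :=
  ∀ Q R : k[X], Q.Monic → R.Monic → Q ≠ 1 → R ≠ 1 → P = Q * R → ¬ IsSquare (Q.resultant D)

/-- the normal form, separable discriminant -/
def T_NF2 : Prop := ∀ (k : Type) [Field k] [CharZero k] (A B : Matrix (Fin 7) (Fin 7) k),
  A.IsSymm → B.IsSymm →
  (A.map (C : k →+* k[X]) - (X : k[X]) • B.map (C : k →+* k[X])).det.Separable →
  (A.map (C : k →+* k[X]) - (X : k[X]) • B.map (C : k →+* k[X])).det.natDegree = 7 →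
  NVM A B → ∃ (P D : k[X]) (Q : Matrix (Fin 7) (Fin 7) k) (c : k), P.Monic ∧
    P.natDegree = 7 ∧ P.Separable ∧ IsCoprime P D ∧ NVP P D ∧ IsSquare (-(gA P D 0).det) ∧
    c ≠ 0 ∧ IsUnit Q.det ∧ c • (Qᵀ * A * Q) = gA P D 1 ∧ c • (Qᵀ * B * Q) = gA P D 0

/-- the factors of `P` -/
def T_FAM : Prop := ∀ (k : Type) [Field k] [CharZero k] (P D : k[X]), P.Monic →
  P.natDegree = 7 → P.Separable → IsCoprime P D → ¬ Irreducible P → NVP P D →
  ∃ (ι : Type) (_ : Fintype ι) (_ : Nonempty ι) (Pj Ej : ι → k[X]), Fam Pj Ej ∧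
    ∏ j, Pj j = P ∧ (∀ j, ¬ SqMod (Pj j) D) ∧ (∀ j, ¬ Pj j ∣ D) ∧ NVF Pj D

/-- good places, the parameter near infinity -/
def T_GB3 : Prop := ∀ (F : Type) [NontriviallyNormedField F] [IsUltrametricDist F] [ProperSpace F]
  [CharZero F] (P D : F[X]) (t : F), ‖(2 : F)‖ = 1 → P.Monic → P.natDegree = 7 →
  (∀ i, ‖P.coeff i‖ ≤ 1) → (∀ i, ‖D.coeff i‖ ≤ 1) →
  (∃ a b : F[X], (∀ i, ‖a.coeff i‖ ≤ 1) ∧ (∀ i, ‖b.coeff i‖ ≤ 1) ∧
    a * P + b * derivative P = 1) →
  (∃ a b : F[X], (∀ i, ‖a.coeff i‖ ≤ 1) ∧ (∀ i, ‖b.coeff i‖ ≤ 1) ∧ a * P + b * D = 1) →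
  1 < ‖t‖ → TI (ft P D t) 3

/-- the theorem for the model -/
def T_COR2 : Prop := ∀ (k : Type) [Field k] [NumberField k] (P D : k[X]), P.Monic →
  P.natDegree = 7 → P.Separable → IsCoprime P D → NVP P D → IsSquare (-(gA P D 0).det) →
  LocCZ (gA P D 0) (gA P D 1) → CZ (gA P D 0) (gA P D 1)

/-- the theorem for two quadratic forms -/
def T_MAI2 : Prop := ∀ (k : Type) [Field k] [NumberField k] (A B : Matrix (Fin 7) (Fin 7) k),
  A.IsSymm → B.IsSymm →
  (A.map (C : k →+* k[X]) - (X : k[X]) • B.map (C : k →+* k[X])).det.Separable →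
  (A.map (C : k →+* k[X]) - (X : k[X]) • B.map (C : k →+* k[X])).det.natDegree = 7 →
  NVM A B → LocCZ A B → CZ A B

end Pool.Agent.H34.N6V
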