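import Pool.Agent.H34.N6.AsmC
import Pool.Agent.H34.N6V.TargetsN

/-!
# Two quadrics in `ℙ⁶`, several irreducible factors: the theorem for the model from the blocks
-/

set_option autoImplicit false

open Polynomial NumberField IsDedekindDomain Matrix Pool.Agent.H32.QC Pool.Agent.H34.N6
open Pool.Agent.H13.DEV

namespace Pool.Agent.H34.N6V

theorem gb3_apply (hADC : T_ADC) (hGB3 : T_GB3) {k K : Type} [Field k] [NumberField k] [Field K]
    [NumberField K] [Algebra k K] {P D : k[X]} (hP : P.Monic)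
    (h7 : P.natDegree = 7) (hsq : IsSquare (-(gA P D 0).det)) (w : FPl K) (θ : K)
    (hg : GoodAt P D (w.under (𝓞 k))) (hθ : 1 < ‖ic w θ‖) :
    SplitAt P D K (Sum.inl w) θ := by
  have hF := goodF hP h7 hsq w hg
  obtain ⟨hp, hc, x, hx⟩ := hADC K w
  let nn : NontriviallyNormedField (w.adicCompletion K) :=
    { (inferInstance : NormedField (w.adicCompletion K)) with non_trivial := ⟨x, hx⟩ }
  exact hGB3 (w.adicCompletion K) _ _ _ hF.two hF.mon hF.deg hF.intP hF.intD hF.sep hF.cop hθ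

theorem pf_COR2 (hADC : T_ADC) (hODC : Pool.Agent.H32.SAB.T_ODC) (hLF : T_LFM) (hLR : T_LR)
    (hDEV : T_DEV) (hSPL : T_SPL) (hGB1 : T_GB1) (hGB2 : T_GB2) (hF2 : T_F2S) (hSPP : T_SPP)
    (hDVF : T_DVF) (hGB3 : T_GB3) (hSPF : T_SPF) (hFAM : T_FAM) (hGF : T_GF) : T_COR2 := by
  intro k _ _ P D hP h7 hsep hD hNV hsq hloc
  by_cases hirr : Irreducible P
  · exact pf_COREM hADC hODC hLF hLR hDEV hSPL hGB1 hGB2 hF2 hSPP k P D hP h7 hirr
      (fun h => hirr.not_isUnit (hD.isUnit_of_dvd' dvd_rfl h)) hsq hloc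
  obtain ⟨ι, i1, i2, Pj, Ej, hfam, hprod, hnsq, hndv, hNVF⟩ :=
    hFAM k P D hP h7 hsep hD hirr hNV
  obtain ⟨S, hS1, hS2⟩ := exists_bad (hGF k ι Pj Ej D hfam hndv)
  have hgood : ∀ v : FPl k, Sum.inl v ∉ S → GoodF Pj Ej D v := by
    intro v hv
    by_contra hcon
    exact hS1 v hv hcon
  have hgood' : ∀ v : FPl k, Sum.inl v ∉ S → GoodAt P D v := by
    intro v hv
    rw [← hprod]
    exact (hgood v hv).all
  obtain ⟨N, G, ε, hNodd, hN7, hG⟩ := local_data hLF hLR hP h7 hsep hD hloc S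
  have hHyp : HypF Pj Ej D (SplitAt P D) S N G ε := by
    refine ⟨hfam, hnsq, hndv, hgood, hS2, hNodd, ?_, ?_, ?_, ?_, ?_, ?_, ?_⟩
    · rw [hprod]
      exact hN7
    · intro v hv
      rw [hprod]
      obtain ⟨h1, h2, h3, h4, -, h5⟩ := hG v hv
      exact ⟨h1, h2, h3, h4, h5⟩
    · intro K _ _ _ θ w₀ hne h
      rw [hprod] at hne
      exact (all_but_one hSPL hP h7 hD θ w₀ hne h).2
    · intro K _ _ _ w θ hw hθ hne h
      rw [hprod] at hne h
      exact gb1_apply hADC hGB1 hP h7 hsq w θ (hgood' _ hw) hθ hne h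
    · intro K _ _ _ w θ hw hθ hne h
      rw [hprod] at hne h
      exact gb2_apply hADC hGB2 hP h7 hsq w θ (hgood' _ hw) hθ hne h
    · intro K _ _ _ w θ hne h1 h2
      rw [hprod] at h1 h2
      exact (split_of_sq hP h7 hsep hD w θ h1 h2).2
    · intro K _ _ _ w θ hw hθ
      exact gb3_apply hADC hGB3 hP h7 hsq w θ (hgood' _ hw) hθ
  obtain ⟨K, iF, iN, iA, θ, hodd, hgen, hne, hR⟩ :=
    hDVF k ι Pj Ej D (SplitAt P D) S N G ε hHyp hNVF
  rw [hprod] at hne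
  obtain ⟨p, hp⟩ := hSPF k P D ∅ hP.ne_zero
  obtain ⟨w₁, hw₁⟩ := exists_place (K := K) p hp.prime
  obtain ⟨hs1, hs2⟩ := hp.spl K w₁ hw₁
  exact final_part hODC hSPL hF2 hP h7 hsep hD hloc K θ w₁ hodd hne hR hs1 hs2

end Pool.Agent.H34.N6V
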