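import Pool.Agent.H13.DEV.Targets
import Pool.Agent.H34.N6.Main2

/-!
# Two quadrics in `ℙ⁶`, several irreducible factors: the device

`P j`, `j : ι`, are distinct monic irreducible polynomials over `k`, `e j` is a root of `P j` in
`L j = k(e j)`, and `E j` is one modulo `P j` and zero modulo the other factors.
-/

set_option autoImplicit false

open Polynomial NumberField IsDedekindDomain Pool.Agent.H32.QC Pool.Agent.H34.N6
open Pool.Agent.H13.DEV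

namespace Pool.Agent.H34.N6V

/-- a family of distinct monic irreducible polynomials with idempotents -/
structure Fam {k ι : Type} [Field k] (P E : ι → k[X]) : Prop where
  mon : ∀ j, (P j).Monic
  irr : ∀ j, Irreducible (P j)
  one : ∀ j, P j ∣ E j - 1
  zero : ∀ i j, i ≠ j → P i ∣ E j

/-- good places for the family -/
structure GoodF {k ι : Type} [Field k] [NumberField k] [Fintype ι] (P E : ι → k[X]) (D : k[X])
    (v : FPl k) : Prop where
  all : GoodAt (∏ j, P j) D v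
  each : ∀ j, GoodAt (P j) D v
  idem : ∀ j, Int v (E j)

/-- the hypotheses of the device, several factors -/
structure HypF {k ι : Type} [Field k] [NumberField k] [Fintype ι] (P E : ι → k[X]) (D : k[X])
    (R : ∀ (K : Type) [Field K] [NumberField K] [Algebra k K], Pl K → K → Prop)
    (S : Finset (Pl k)) (N : ℕ) (G : Pl k → k[X]) (ε : Pl k → ℝ) : Prop where
  fam : Fam P E
  nsq : ∀ j, ¬ SqMod (P j) D
  ndv : ∀ j, ¬ P j ∣ D
  good : ∀ v : FPl k, Sum.inl v ∉ S → GoodF P E D v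
  real : ∀ φ : k →+* ℝ, Sum.inr φ ∈ S
  odd : Odd N
  le : (∏ j, P j).natDegree ≤ N
  loc : ∀ v ∈ S, 0 < ε v ∧ (G v).Monic ∧ (G v).natDegree = N ∧ IsCoprime (G v) (∏ j, P j) ∧
    NearOK R v N (G v) (ε v)
  one : ∀ (K : Type) [Field K] [NumberField K] [Algebra k K] (θ : K) (w₀ : FPl K),
    aeval θ (∏ j, P j) ≠ 0 → (∀ w : Pl K, w ≠ Sum.inl w₀ → R K w θ) → ∀ w, R K w θ
  pos : ∀ (K : Type) [Field K] [NumberField K] [Algebra k K] (w : FPl K) (θ : K),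
    Sum.inl (w.under (𝓞 k)) ∉ S → ‖ic w θ‖ ≤ 1 → aeval θ (∏ j, P j) ≠ 0 →
    (∀ e : w.adicCompletion K, eval₂ (kc k w) e (∏ j, P j) = 0 →
      ‖e - ic w θ‖ < 1 → IsSquare (eval₂ (kc k w) e D)) → R K (Sum.inl w) θ
  neg : ∀ (K : Type) [Field K] [NumberField K] [Algebra k K] (w : FPl K) (θ : K),
    Sum.inl (w.under (𝓞 k)) ∉ S → ‖ic w θ‖ ≤ 1 → aeval θ (∏ j, P j) ≠ 0 →
    (∃ e : w.adicCompletion K, eval₂ (kc k w) e (∏ j, P j) = 0 ∧ ‖e - ic w θ‖ < 1 ∧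
      (∀ x : w.adicCompletion K, ‖x‖ < 1 → ‖x‖ ≤ ‖e - ic w θ‖) ∧
      ¬ IsSquare (eval₂ (kc k w) e D)) → ¬ R K (Sum.inl w) θ
  spl : ∀ (K : Type) [Field K] [NumberField K] [Algebra k K] (w : FPl K) (θ : K),
    aeval θ (∏ j, P j) ≠ 0 → ((∏ j, P j).map (kc k w)).Splits →
    (∀ e : w.adicCompletion K, eval₂ (kc k w) e (∏ j, P j) = 0 →
      IsSquare (eval₂ (kc k w) e D)) → R K (Sum.inl w) θ
  far : ∀ (K : Type) [Field K] [NumberField K] [Algebra k K] (w : FPl K) (θ : K),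
    Sum.inl (w.under (𝓞 k)) ∉ S → 1 < ‖ic w θ‖ → R K (Sum.inl w) θ

/-- no vertical class, in terms of the factors -/
def NVF {k ι : Type} [Field k] [Fintype ι] (P : ι → k[X]) (D : k[X]) : Prop :=
  ∀ s : Finset ι, s.Nonempty → s ≠ Finset.univ → ¬ IsSquare (∏ j ∈ s, (P j).resultant D)

/-- the polynomial at the auxiliary place, several factors -/
structure StarF {k ι : Type} [Field k] [NumberField k] (L : ι → Type) [∀ j, Field (L j)]
    [∀ j, NumberField (L j)] [∀ j, Algebra k (L j)] (e : ∀ j, L j) (N : ℕ) (j₀ : ι)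
    (ws : FPl (L j₀)) (G : k[X]) : Prop where
  star : Star (e j₀) N ws G
  oth : ∀ j, j ≠ j₀ → ∀ w : FPl (L j), w.under (𝓞 k) = ws.under (𝓞 k) →
    ‖ic w (aeval (e j) G)‖ = 1

/-! ## Generalities -/

/-- V1: almost all places are good -/
def T_GF : Prop := ∀ (k ι : Type) [Field k] [NumberField k] [Fintype ι] (P E : ι → k[X])
  (D : k[X]), Fam P E → (∀ j, ¬ P j ∣ D) → {v : FPl k | ¬ GoodF P E D v}.Finite

/-- V2: a prime number which splits completely, any polynomial -/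
def T_SPF : Prop := ∀ (k : Type) [Field k] [NumberField k] (P D : k[X]) (S : Finset (Pl k)),
  P ≠ 0 → ∃ p : ℕ, PrimeOK P D S p

/-- V3: an element which is small at one place, a unit congruent to one at another, integral at
the other places above `v`, given by an integral polynomial -/
def T_SEP : Prop := ∀ (k L : Type) [Field k] [NumberField k] [Field L] [NumberField L]
  [Algebra k L] (P D : k[X]) (e : L) (v : FPl k) (w w' : FPl L), P.Monic → Gen P e →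
  GoodAt P D v → w.under (𝓞 k) = v → w'.under (𝓞 k) = v → w ≠ w' →
  ∃ Q : k[X], Int v Q ∧ ‖ic w (aeval e Q)‖ < 1 ∧ ‖ic w' (aeval e Q) - 1‖ < 1

/-! ## Theorem D -/

/-- V4: Theorem D for one factor, the residue modulo the factor -/
def T_THA : Prop := ∀ (k L : Type) [Field k] [NumberField k] [Field L] [NumberField L]
  [Algebra k L] (P D : k[X]) (e : L) (S : Finset (Pl k)) (p : ℕ) (G : Pl k → k[X])
  (ε : ℝ), P.Monic → Gen P e → ¬ IsSquare (aeval e D) →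
  (∀ v : FPl k, Sum.inl v ∉ S → GoodAt P D v) → (∀ φ : k →+* ℝ, Sum.inr φ ∈ S) →
  p.Prime → (∀ v : FPl k, Sum.inl v ∈ S → (p : 𝓞 k) ∉ v.asIdeal) → 0 < ε →
  (∀ v ∈ S, aeval e (G v) ≠ 0) → sg D e S G = 1 →
  ∃ Q : k[X], Q.degree < P.degree ∧ aeval e Q ≠ 0 ∧ (∀ v ∈ S, Close v ε Q (G v %ₘ P)) ∧
    (∀ v : FPl k, Sum.inl v ∉ S → (p : 𝓞 k) ∉ v.asIdeal → Int v Q) ∧
    ∀ w : FPl L, Sum.inl (w.under (𝓞 k)) ∉ S → (p : 𝓞 L) ∉ w.asIdeal →
      ¬ IsSquare (ic w (aeval e D)) → ‖ic w (aeval e Q)‖ = 1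

/-- V5: gluing the residues -/
def T_GLU : Prop := ∀ (k ι : Type) [Field k] [NumberField k] [Fintype ι] (P E : ι → k[X])
  (S : Finset (Pl k)) (N p : ℕ) (G : Pl k → k[X]) (ε : Pl k → ℝ), Fam P E →
  (∀ v : FPl k, Sum.inl v ∉ S → ∀ j, Int v (P j) ∧ Int v (E j)) →
  (∏ j, P j).natDegree ≤ N → p.Prime →
  (∀ v : FPl k, Sum.inl v ∈ S → (p : 𝓞 k) ∉ v.asIdeal) →
  (∀ v ∈ S, 0 < ε v ∧ (G v).Monic ∧ (G v).natDegree = N) →
  ∃ ε' : ℝ, 0 < ε' ∧ ∀ Q : ι → k[X], (∀ j, (Q j).degree < (P j).degree) →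
    (∀ j, ∀ v ∈ S, Close v ε' (Q j) (G v %ₘ P j)) →
    (∀ j, ∀ v : FPl k, Sum.inl v ∉ S → (p : 𝓞 k) ∉ v.asIdeal → Int v (Q j)) →
    ∃ G' : k[X], G'.Monic ∧ G'.natDegree = N ∧ (∀ v ∈ S, Close v (ε v) G' (G v)) ∧
      (∀ v : FPl k, Sum.inl v ∉ S → (p : 𝓞 k) ∉ v.asIdeal → Int v G') ∧
      ∀ j, P j ∣ G' - Q j

/-- V6: Theorem D for several factors -/
def T_THF : Prop := ∀ (k ι : Type) [Field k] [NumberField k] [Fintype ι] (L : ι → Type)
  [∀ j, Field (L j)] [∀ j, NumberField (L j)] [∀ j, Algebra k (L j)] (P E : ι → k[X])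
  (D : k[X]) (e : ∀ j, L j) (S : Finset (Pl k)) (N p : ℕ) (G : Pl k → k[X])
  (ε : Pl k → ℝ), Fam P E → (∀ j, Gen (P j) (e j)) → (∀ j, ¬ IsSquare (aeval (e j) D)) →
  (∀ v : FPl k, Sum.inl v ∉ S → GoodF P E D v) → (∀ φ : k →+* ℝ, Sum.inr φ ∈ S) →
  (∏ j, P j).natDegree ≤ N → p.Prime →
  (∀ v : FPl k, Sum.inl v ∈ S → (p : 𝓞 k) ∉ v.asIdeal) →
  (∀ v ∈ S, 0 < ε v ∧ (G v).Monic ∧ (G v).natDegree = N ∧ ∀ j, aeval (e j) (G v) ≠ 0) →
  (∀ j, sg D (e j) S G = 1) → ∃ G' : k[X], ∀ j, Out D (e j) S N p G ε G'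

/-- V7: the property holds at all places which are not above `S' \ S`, several factors -/
def T_ALF : Prop := ∀ (k ι : Type) [Field k] [NumberField k] [Fintype ι] [Nonempty ι]
  (L : ι → Type) [∀ j, Field (L j)] [∀ j, NumberField (L j)] [∀ j, Algebra k (L j)]
  (P E : ι → k[X]) (D : k[X]) (e : ∀ j, L j)
  (R : ∀ (K : Type) [Field K] [NumberField K] [Algebra k K], Pl K → K → Prop)
  (S S' : Finset (Pl k)) (N p : ℕ) (G Gx : Pl k → k[X]) (ε εx : Pl k → ℝ) (G' : k[X]),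
  HypF P E D R S N G ε → (∀ j, Gen (P j) (e j)) → S ⊆ S' → PrimeOK (∏ j, P j) D S' p →
  (∀ v ∈ S, Gx v = G v ∧ εx v ≤ ε v) → (∀ j, Out D (e j) S' N p Gx εx G') →
  ∀ (K : Type) [Field K] [NumberField K] [Algebra k K] (θ : K),
  IntermediateField.adjoin k {θ} = ⊤ → aeval θ G' = 0 → aeval θ (∏ j, P j) ≠ 0 ∧
  ∀ w : Pl K, (bel (k := k) w ∈ S' → bel (k := k) w ∈ S) → R K w θ

/-! ## The parity -/

/-- V8: the factor of the reduction, with the division of `P` -/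
def T_FAD : Prop := ∀ (k L : Type) [Field k] [NumberField k] [Field L] [NumberField L]
  [Algebra k L] (P D : k[X]) (e : L) (ws : FPl L), P.Monic → Gen P e →
  GoodAt P D (ws.under (𝓞 k)) → ∃ A : k[X], A.Monic ∧ Int (ws.under (𝓞 k)) A ∧
    A.natDegree ≤ P.natDegree ∧ ‖ic ws (aeval e A)‖ < 1 ∧
    ‖ic ws (aeval e (derivative A))‖ = 1 ∧
    (∀ w : FPl L, w.under (𝓞 k) = ws.under (𝓞 k) → w ≠ ws → ‖ic w (aeval e A)‖ = 1) ∧
    (∀ π : k, ‖ic (ws.under (𝓞 k)) π‖ < 1 →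
      (∀ x : k, ‖ic (ws.under (𝓞 k)) x‖ < 1 →
        ‖ic (ws.under (𝓞 k)) x‖ ≤ ‖ic (ws.under (𝓞 k)) π‖) →
      ∀ x : ws.adicCompletion L, ‖x‖ < 1 → ‖x‖ ≤ ‖kc k ws π‖) ∧
    ∀ Q : k[X], Int (ws.under (𝓞 k)) Q → ‖ic ws (aeval e Q)‖ < 1 →
      ∃ C B : k[X], Int (ws.under (𝓞 k)) C ∧ Q = A * C + B ∧
        ∀ i, ‖ic (ws.under (𝓞 k)) (B.coeff i)‖ < 1

/-- V9: the polynomial at the auxiliary place, several factors -/
def T_GSF : Prop := ∀ (k ι : Type) [Field k] [NumberField k] [Fintype ι] (L : ι → Type)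
  [∀ j, Field (L j)] [∀ j, NumberField (L j)] [∀ j, Algebra k (L j)] (P E : ι → k[X])
  (D : k[X]) (e : ∀ j, L j) (N : ℕ) (j₀ : ι) (ws : FPl (L j₀)) (c : k), Fam P E →
  (∀ j, Gen (P j) (e j)) → GoodF P E D (ws.under (𝓞 k)) → (∏ j, P j).natDegree ≤ N →
  ‖ic (ws.under (𝓞 k)) c‖ ≤ 1 → ‖ic (ws.under (𝓞 k)) (eval c (∏ j, P j))‖ = 1 →
  ∃ G : k[X], StarF L e N j₀ ws G

/-- V10: the conditions are open, several factors -/
def T_STF : Prop := ∀ (k ι : Type) [Field k] [NumberField k] [Fintype ι] (L : ι → Type)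
  [∀ j, Field (L j)] [∀ j, NumberField (L j)] [∀ j, Algebra k (L j)] (P : ι → k[X])
  (e : ∀ j, L j) (N : ℕ) (j₀ : ι) (ws : FPl (L j₀)) (G : k[X]), (∀ j, (P j).Monic) →
  (∀ j, Int (ws.under (𝓞 k)) (P j)) → (∀ j, aeval (e j) (P j) = 0) →
  StarF L e N j₀ ws G →
  ∃ ε : ℝ, 0 < ε ∧ ∀ G' : k[X], G'.Monic → G'.natDegree = N →
    Close (Sum.inl (ws.under (𝓞 k))) ε G' G → StarF L e N j₀ ws G'

/-- V11: the parity, several factors -/
def T_PAF : Prop := ∀ (k ι : Type) [Field k] [NumberField k] [Fintype ι] (L : ι → Type)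
  [∀ j, Field (L j)] [∀ j, NumberField (L j)] [∀ j, Algebra k (L j)] (P E : ι → k[X])
  (D : k[X]) (e : ∀ j, L j)
  (R : ∀ (K : Type) [Field K] [NumberField K] [Algebra k K], Pl K → K → Prop)
  (S : Finset (Pl k)) (N : ℕ) (G : Pl k → k[X]) (ε : Pl k → ℝ),
  HypF P E D R S N G ε → (∀ j, Gen (P j) (e j)) → ∀ j₀ : ι,
  (∀ j, j ≠ j₀ → sg D (e j) S G = 1) → sg D (e j₀) S G = 1

/-! ## Norms and residue fields -/

/-- V12: squares in finite fields and resultants -/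
def T_FF1 : Prop := ∀ (F : Type) [Field F] [Finite F], (2 : F) ≠ 0 → ∀ q D : F[X], q.Monic →
  Irreducible q → ¬ q ∣ D → (IsSquare (q.resultant D) ↔ SqMod q D)

/-- V13: the same for products -/
def T_FF2 : Prop := ∀ (F T : Type) [Field F] [Finite F] [Fintype T], (2 : F) ≠ 0 →
  ∀ (q : T → F[X]) (D : F[X]), (∀ i, (q i).Monic ∧ Irreducible (q i) ∧ ¬ q i ∣ D) →
  (IsSquare ((∏ i, q i).resultant D) ↔ Even (Nat.card {i : T // ¬ SqMod (q i) D}))

/-- the ring of elements of `k` which are integral at `v` with a surjection on a finite field -/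
structure Resd {k : Type} [Field k] [NumberField k] (v : FPl k) (F : Type) [Field F]
    (O : Subring k) (ρ : O →+* F) : Prop where
  mem : ∀ x : k, x ∈ O ↔ ‖ic v x‖ ≤ 1
  sur : Function.Surjective ρ
  ker : ∀ x : O, ρ x = 0 ↔ ‖ic v (x : k)‖ < 1

/-- V14: residue fields -/
def T_RSF : Prop := ∀ (k : Type) [Field k] [NumberField k] (v : FPl k),
  ∃ (F : Type) (_ : Field F) (_ : Finite F) (O : Subring k) (ρ : O →+* F), Resd v F O ρ

/-- V15: squares of units -/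
def T_SQR : Prop := ∀ (k : Type) [Field k] [NumberField k] (v : FPl k) (F : Type) [Field F]
  (O : Subring k) (ρ : O →+* F), Resd v F O ρ → ‖ic v 2‖ = 1 → ∀ x : O, ρ x ≠ 0 →
  (IsSquare (ic v (x : k)) ↔ IsSquare (ρ x))

/-- V16: the factors of the reduction are the places -/
def T_FBR : Prop := ∀ (k L : Type) [Field k] [NumberField k] [Field L] [NumberField L]
  [Algebra k L] (P D : k[X]) (e : L) (v : FPl k) (F : Type) [Field F] (O : Subring k)
  (ρ : O →+* F) (P' : O[X]), P.Monic → Gen P e → GoodAt P D v → Resd v F O ρ →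
  P'.map O.subtype = P → ∃ (T : Type) (_ : Fintype T) (w : T → FPl L) (q : T → F[X]),
    Function.Injective w ∧ (∀ u : FPl L, u.under (𝓞 k) = v ↔ ∃ i, w i = u) ∧
    (∀ i, (q i).Monic ∧ Irreducible (q i)) ∧ P'.map ρ = ∏ i, q i ∧
    ∀ i, ∀ Q : O[X], q i ∣ Q.map ρ ↔ ‖ic (w i) (aeval e (Q.map O.subtype))‖ < 1

/-- V17: squares at a place and squares modulo the factor -/
def T_SQW : Prop := ∀ (k L : Type) [Field k] [NumberField k] [Field L] [NumberField L]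
  [Algebra k L] (P D : k[X]) (e : L) (w : FPl L) (F : Type) [Field F] (O : Subring k)
  (ρ : O →+* F) (D' : O[X]) (q : F[X]), P.Monic → Gen P e → GoodAt P D (w.under (𝓞 k)) →
  Resd (w.under (𝓞 k)) F O ρ → D'.map O.subtype = D →
  (∀ Q : O[X], q ∣ Q.map ρ ↔ ‖ic w (aeval e (Q.map O.subtype))‖ < 1) →
  (IsSquare (ic w (aeval e D)) ↔ SqMod q (D'.map ρ))

open Classical in
/-- the number of places above with `D(e)` no square, as a sign -/
noncomputable def psi {k L : Type} [Field k] [NumberField k] [Field L] [NumberField L]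
    [Algebra k L] (D : k[X]) (e : L) (v : FPl k) : ℤ :=
  ∏ᶠ (w : FPl L) (_ : w.under (𝓞 k) = v), if IsSquare (ic w (aeval e D)) then 1 else -1

open Classical in
/-- V18: the norm of the quadratic character -/
def T_NRM : Prop := ∀ (k L : Type) [Field k] [NumberField k] [Field L] [NumberField L]
  [Algebra k L] (P D : k[X]) (e : L) (v : FPl k), P.Monic → Gen P e → GoodAt P D v →
  psi D e v = if IsSquare (ic v (P.resultant D)) then 1 else -1

/-- V19: the quadratic character is multiplicative -/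
def T_CHI : Prop := ∀ (k : Type) [Field k] [NumberField k] (v : FPl k), ‖ic v 2‖ = 1 →
  ∀ a b : k, ‖ic v a‖ = 1 → ‖ic v b‖ = 1 →
  (IsSquare (ic v (a * b)) ↔ (IsSquare (ic v a) ↔ IsSquare (ic v b)))

/-! ## Adjusting the signs -/

/-- V20: the property near infinity -/
def T_INA : Prop := ∀ (k ι : Type) [Field k] [NumberField k] [Fintype ι] [Nonempty ι]
  (P E : ι → k[X]) (D : k[X])
  (R : ∀ (K : Type) [Field K] [NumberField K] [Algebra k K], Pl K → K → Prop)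
  (S : Finset (Pl k)) (N : ℕ) (G : Pl k → k[X]) (ε : Pl k → ℝ) (v : FPl k) (c π : k),
  HypF P E D R S N G ε → Sum.inl v ∉ S → π ≠ 0 → ‖ic v π‖ < 1 → ‖ic v c‖ ≤ 1 →
  ‖ic v (eval c (∏ j, P j))‖ = 1 →
  ∃ ε' : ℝ, 0 < ε' ∧ NearOK R (Sum.inl v) N ((X - C π⁻¹) * (X - C c) ^ (N - 1)) ε'

/-- V21: the symbols near infinity -/
def T_INB : Prop := ∀ (k L : Type) [Field k] [NumberField k] [Field L] [NumberField L]
  [Algebra k L] (P D : k[X]) (e : L) (v : FPl k) (c π : k) (n : ℕ), P.Monic → Gen P e →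
  GoodAt P D v → π ≠ 0 → ‖ic v π‖ < 1 → (∀ x : k, ‖ic v x‖ < 1 → ‖ic v x‖ ≤ ‖ic v π‖) →
  ‖ic v c‖ ≤ 1 → ‖ic v (eval c P)‖ = 1 →
  ∏ᶠ (w : Pl L) (_ : bel (k := k) w = Sum.inl v),
    hs w (aeval e ((X - C π⁻¹) * (X - C c) ^ n)) (aeval e D) = psi D e v

/-- V22: signs -/
def T_GEN : Prop := ∀ (ι T : Type) [Fintype ι] (ψ : T → ι → ℤ),
  (∀ v j, ψ v j = 1 ∨ ψ v j = -1) →
  (∀ s : Finset ι, s.Nonempty → ∃ v, ∏ j ∈ s, ψ v j = -1) →
  ∀ π : ι → ℤ, (∀ j, π j = 1 ∨ π j = -1) → ∃ A : Finset T, ∀ j, ∏ v ∈ A, ψ v j = π j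

/-- V23: the symbols over a disjoint union -/
def T_SGU : Prop := ∀ (k L : Type) [Field k] [NumberField k] [Field L] [NumberField L]
  [Algebra k L] (D : k[X]) (e : L) (S : Finset (Pl k)) (A : Finset (FPl k))
  (G : Pl k → k[X]), (∀ v ∈ A, Sum.inl v ∉ S) →
  ∃ S' : Finset (Pl k), (∀ v, v ∈ S' ↔ v ∈ S ∨ ∃ u ∈ A, v = Sum.inl u) ∧
    sg D e S' G = sg D e S G * ∏ v ∈ A, ∏ᶠ (w : Pl L) (_ : bel (k := k) w = Sum.inl v),
      hs w (aeval e (G (Sum.inl v))) (aeval e D)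

/-- V24: places which separate the factors -/
def T_PSI : Prop := ∀ (k ι : Type) [Field k] [NumberField k] [Fintype ι] (L : ι → Type)
  [∀ j, Field (L j)] [∀ j, NumberField (L j)] [∀ j, Algebra k (L j)] (P E : ι → k[X])
  (D : k[X]) (e : ∀ j, L j), Fam P E → (∀ j, Gen (P j) (e j)) → (∀ j, ¬ P j ∣ D) →
  ∀ s : Finset ι, ¬ IsSquare (∏ j ∈ s, (P j).resultant D) →
  {v : FPl k | GoodF P E D v ∧ ∏ j ∈ s, psi D (e j) v = -1}.Infinite

/-- V25: adjusting the signs -/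
def T_ADJ : Prop := ∀ (k ι : Type) [Field k] [NumberField k] [Fintype ι] (L : ι → Type)
  [∀ j, Field (L j)] [∀ j, NumberField (L j)] [∀ j, Algebra k (L j)] (P E : ι → k[X])
  (D : k[X]) (e : ∀ j, L j)
  (R : ∀ (K : Type) [Field K] [NumberField K] [Algebra k K], Pl K → K → Prop)
  (S : Finset (Pl k)) (N : ℕ) (G : Pl k → k[X]) (ε : Pl k → ℝ),
  HypF P E D R S N G ε → (∀ j, Gen (P j) (e j)) → NVF P D → ∀ j₀ : ι,
  ∃ (S' : Finset (Pl k)) (G' : Pl k → k[X]) (ε' : Pl k → ℝ), HypF P E D R S' N G' ε' ∧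
    ∀ j, j ≠ j₀ → sg D (e j) S' G' = 1

/-- V26: the device for several factors -/
def T_DVF : Prop := ∀ (k ι : Type) [Field k] [NumberField k] [Fintype ι] [Nonempty ι]
  (P E : ι → k[X]) (D : k[X])
  (R : ∀ (K : Type) [Field K] [NumberField K] [Algebra k K], Pl K → K → Prop)
  (S : Finset (Pl k)) (N : ℕ) (G : Pl k → k[X]) (ε : Pl k → ℝ),
  HypF P E D R S N G ε → NVF P D →
  ∃ (K : Type) (_ : Field K) (_ : NumberField K) (_ : Algebra k K) (θ : K),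
    Odd (Module.finrank k K) ∧ IntermediateField.adjoin k {θ} = ⊤ ∧
    aeval θ (∏ j, P j) ≠ 0 ∧ ∀ w, R K w θ

end Pool.Agent.H34.N6V
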